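import Pool.Agent.H30.GMC.StT

/-!
BIRS: birational representations come from birational morphisms.
-/

open AlgebraicGeometry CategoryTheory FCB MvPolynomial
open Pool.Agent.H22.GMC (Coord Source crd)

namespace GMC

namespace BIRS

/-- Homogeneous polynomials at scaled arguments. -/
theorem aeval_scale {K : Type} [Field K] [Algebra ℂ K] {m k : ℕ}
    {G : MvPolynomial (Fin (m + 1)) ℂ} (hG : G.IsHomogeneous k) (x : K) (y : Fin (m + 1) → K) :
    aeval (fun i => x * y i) G = x ^ k * aeval y G := by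
  rw [aeval_def, aeval_def, eval₂_eq', eval₂_eq', Finset.mul_sum]
  refine Finset.sum_congr rfl fun d hd => ?_
  have hdk : ∑ i, d i = k := by
    have h1 := hG (mem_support_iff.1 hd)
    rw [← h1]
    exact (Finsupp.degree_eq_weight_one (R := ℕ) ▸ (Finsupp.degree_eq_sum d).symm :)
  have h2 : ∏ i, (x * y i) ^ d i = x ^ k * ∏ i, y i ^ d i := by
    rw [← hdk, ← Finset.prod_pow_eq_pow_sum, ← Finset.prod_mul_distrib]
    exact Finset.prod_congr rfl fun i _ => mul_pow _ _ _
  rw [h2]
  ring

section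

variable (S : Source ℂ 2)

/-- The restriction to the affine cone, with values in the function field of the cone. -/
noncomputable def chi : MvPolynomial (Fin (S.r + 1)) ℂ →+* S.K :=
  (algebraMap S.S S.K).comp S.res

theorem chi_eq_zero {p : MvPolynomial (Fin (S.r + 1)) ℂ} (hp : p ∈ S.I) : chi S p = 0 := by
  have h1 : S.res p = 0 := Ideal.Quotient.eq_zero_iff_mem.2 hp
  rw [chi, RingHom.comp_apply, h1, map_zero]

theorem chi_C (z : ℂ) : chi S (C z) = algebraMap ℂ S.K z := rfl

theorem ratio_eq (A B : MvPolynomial (Fin (S.r + 1)) ℂ) : S.ratio A B = chi S A / chi S B := rfl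

theorem chi_aeval (F : Fin 10 → MvPolynomial (Fin (S.r + 1)) ℂ) (G : MvPolynomial (Fin 10) ℂ) :
    chi S (aeval F G) = aeval (fun i => chi S (F i)) G := by
  rw [aeval_def, hom_eval₂, aeval_def]
  congr 1

variable {S}

theorem key {k : ℕ} (hS : S.Birational) {G : MvPolynomial (Fin 10) ℂ} (hG : G ∈ grd 9 k)
    (hGI : aeval (fun i => S.F (eI i)) G ∈ S.I) : dh 0 G = 0 := by
  obtain ⟨hind, -⟩ := hS
  set b : Coord 2 := some (0, 0) with hb
  -- `x_b ≠ 0`
  have hxb : chi S (S.F b) ≠ 0 := by
    intro h0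
    have h1 := hind.ne_zero none
    apply h1
    rw [ratio_eq, h0, div_zero]
  let e : Fin 3 → Option (Fin 2) := ![some 0, some 1, none]
  have he : Function.Injective e := by decide
  have hv := hind.comp e he
  set v : Fin 3 → S.K := (fun a : Option (Fin 2) => S.ratio (S.F (crd 2 a)) (S.F b)) ∘ e with hvdef
  have hv0 : v 0 = chi S (S.F (some (0, 1))) / chi S (S.F b) := rfl
  have hv1 : v 1 = chi S (S.F (some (0, 2))) / chi S (S.F b) := rfl
  have hv2 : v 2 = chi S (S.F none) / chi S (S.F b) := rfl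
  -- the relations
  have hsym : ∀ i j : Fin 3, chi S (S.F (some (i, j))) = chi S (S.F (some (j, i))) := by
    intro i j
    have h1 := chi_eq_zero S (S.F_symm i j)
    rw [map_sub] at h1
    exact sub_eq_zero.1 h1
  have hrank : ∀ i j : Fin 3, chi S (S.F (some (i, j))) * chi S (S.F b) =
      chi S (S.F (some (0, i))) * chi S (S.F (some (0, j))) := by
    intro i j
    have h1 := chi_eq_zero S (S.F_rank i j 0 0)
    rw [map_sub, map_mul, map_mul] at h1
    have h2 := sub_eq_zero.1 h1
    rw [hb, h2, hsym i 0]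
  let c : Fin 3 → S.K := ![1, v 0, v 1]
  have hc' : ∀ i : Fin 3, c i = chi S (S.F (some (0, i))) / chi S (S.F b) := by
    intro i
    fin_cases i
    · exact (div_self hxb).symm
    · exact hv0
    · exact hv1
  let mv : Coord 2 → S.K := fun a => a.elim (v 2) fun p => c p.1 * c p.2
  have hx : ∀ a, chi S (S.F a) = chi S (S.F b) * mv a := by
    intro a
    rcases a with _ | ⟨i, j⟩
    · show chi S (S.F none) = chi S (S.F b) * v 2
      rw [hv2]
      field_simp
    · show chi S (S.F (some (i, j))) = chi S (S.F b) * (c i * c j)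
      rw [hc' i, hc' j]
      field_simp
      linear_combination hrank i j
  have hmon : ∀ a, aeval v (aeval (hc 0) (mon a)) = mv a := by
    have hci : ∀ i : Fin 3, aeval v (hc 0 i.castSucc) = c i := by
      intro i
      fin_cases i
      · show aeval v (1 : MvPolynomial (Fin 3) ℂ) = 1
        exact map_one _
      · show aeval v (X 0 : MvPolynomial (Fin 3) ℂ) = v 0
        exact aeval_X _ _
      · show aeval v (X 1 : MvPolynomial (Fin 3) ℂ) = v 1
        exact aeval_X _ _
    intro a
    rcases a with _ | ⟨i, j⟩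
    · show aeval v (aeval (hc 0) (X 3 : MvPolynomial (Fin 4) ℂ)) = v 2
      rw [aeval_X]
      show aeval v (X 2 : MvPolynomial (Fin 3) ℂ) = v 2
      exact aeval_X _ _
    · show aeval v (aeval (hc 0) (X i.castSucc * X j.castSucc : MvPolynomial (Fin 4) ℂ)) = c i * c j
      rw [map_mul, map_mul, aeval_X, aeval_X, hci, hci]
  have hcomp : aeval v (dh 0 G) = aeval (fun k => mv (eI k)) G := by
    have h1 : (aeval v).comp (dh 0) = aeval (fun k => mv (eI k)) := by
      refine algHom_ext fun k => ?_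
      rw [aeval_X, AlgHom.comp_apply, dh, AlgHom.comp_apply, rho, aeval_X]
      exact hmon (eI k)
    rw [← h1]
    rfl
  have h3 := chi_eq_zero S hGI
  have h4 : (fun i => chi S (S.F (eI i))) = fun i => chi S (S.F b) * mv (eI i) := by
    funext i
    exact hx (eI i)
  rw [chi_aeval, h4, aeval_scale hG, ← hcomp] at h3
  have h5 : aeval v (dh 0 G) = 0 := (mul_eq_zero.1 h3).resolve_left (pow_ne_zero _ hxb)
  exact (map_eq_zero_iff _ hv).1 h5

theorem image_sub {L : Type} [Field L] (θ : L →+* S.K) (p : L → Prop)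
    (hadd : ∀ a b, p a → p b → p (a + b)) (hmul : ∀ a b, p a → p b → p (a * b))
    (hinv : ∀ a, p a → p a⁻¹) (hconst : ∀ z : ℂ, ∃ l, p l ∧ θ l = algebraMap ℂ S.K z)
    (hgen : ∀ a b, ∃ l, p l ∧ θ l = S.ratio (S.F a) (S.F b)) :
    ∀ x ∈ S.imageField, ∃ l, p l ∧ θ l = x := by
  intro x hx
  refine IntermediateField.adjoin_induction ℂ (p := fun x _ => ∃ l, p l ∧ θ l = x) ?_ ?_ ?_ ?_ ?_ hx
  · rintro y ⟨a, b, rfl⟩
    exact hgen a b
  · exact hconst
  · rintro y z - - ⟨l, hl, rfl⟩ ⟨l', hl', rfl⟩
    exact ⟨l + l', hadd _ _ hl hl', map_add _ _ _⟩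
  · rintro y - ⟨l, hl, rfl⟩
    exact ⟨l⁻¹, hinv _ hl, map_inv₀ _ _⟩
  · rintro y z - - ⟨l, hl, rfl⟩ ⟨l', hl', rfl⟩
    exact ⟨l * l', hmul _ _ hl hl', map_mul _ _ _⟩

end

/-- every nonzero rational function is invertible at the generic point -/
theorem unitAt_generic {T : Scheme.{0}} [IsIntegral T] {a : T.functionField} (ha : a ≠ 0) :
    UnitAt (genericPoint T) a := by
  refine ⟨a, isUnit_iff_ne_zero.2 ha, ?_⟩
  show (T.presheaf.stalkSpecializes _).hom a = a
  rw [TopCat.Presheaf.stalkSpecializes_refl]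
  rfl

theorem regAt_generic {T : Scheme.{0}} [IsIntegral T] (a : T.functionField) :
    RegAt (genericPoint T) a := by
  refine ⟨a, ?_⟩
  show (T.presheaf.stalkSpecializes _).hom a = a
  rw [TopCat.Presheaf.stalkSpecializes_refl]
  rfl

end BIRS

open BIRS in
theorem birs_thm (hV : S_VPT) (hA : S_RATA) (hB : S_RATB) (hRP : S_RPUL) (hPu : S_PULA)
    (hG : S_RGEN) (hD : S_XDEH) (hE : S_XIEX) (hT : S_THET) : S_BIRS := by
  intro hP M Y f R hs hbir
  -- the image of the generic point
  have hIX : IX ≤ M.P (f (genericPoint Y.X)) := by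
    rw [← M.gen]
    refine ((hP 9).2.2.2.2.1 _ _).1 ?_
    have h1 : genericPoint M.X ⤳ f (genericPoint Y.X) := genericPoint_specializes _
    exact h1.map M.emb.continuous
  obtain ⟨ξ, hξ⟩ := (hE M).1
  have hle : M.P (f (genericPoint Y.X)) ≤ IX := by
    intro G hGP
    have hcomp : ∀ k, homogeneousComponent k G ∈ IX := by
      intro k
      have h1 : homogeneousComponent k G ∈ M.P (f (genericPoint Y.X)) :=
        ((hP 9).2.1 _ G).1 hGP k
      have hk : homogeneousComponent k G ∈ grd 9 k := homogeneousComponent_isHomogeneous k G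
      have h2 := (R.vanish k _ hk).1 h1
      have h3 : dh 0 (homogeneousComponent k G) = 0 := key (S := R.src hP) hbir hk h2
      have h4 := (hD M ξ hξ 0).1 k _ hk
      rw [h3] at h4
      have h5 := (hA _ _ M.emb).2.2 _ _ _ h4
      have h6 := h5.1 (map_zero _)
      rw [← M.gen]
      exact h6
    rw [← sum_homogeneousComponent G]
    exact Ideal.sum_mem _ fun k _ => hcomp k
  have hgen : f (genericPoint Y.X) = genericPoint M.X := by
    refine (hV M.V).2.2.1 _ _ ?_
    show M.P (f (genericPoint Y.X)) = PI (M.emb (genericPoint M.X))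
    rw [M.gen]
    exact le_antisymm hle hIX
  have hpull := hPu M.X Y.X f
  refine ⟨hgen, ?_, ?_⟩
  · -- injectivity
    rw [injective_iff_map_eq_zero]
    intro s hs0
    by_contra hne
    have hinj : Function.Injective
        (algebraMap (M.X.presheaf.stalk (f (genericPoint Y.X))) M.X.functionField) :=
      IsFractionRing.injective _ _
    have h1 : algebraMap (M.X.presheaf.stalk (f (genericPoint Y.X))) M.X.functionField s ≠ 0 := by
      intro h0
      exact hne (hinj (h0.trans (map_zero _).symm))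
    have h2 : UnitAt (f (genericPoint Y.X))
        (algebraMap (M.X.presheaf.stalk (f (genericPoint Y.X))) M.X.functionField s) := by
      have h3 := unitAt_generic h1
      rwa [← hgen] at h3
    exact ((hpull.2.2.2.1 _ _ ⟨s, rfl, rfl⟩).1 h2) hs0
  · -- surjectivity
    intro z
    obtain ⟨θ, hθ⟩ := hT Y
    let S : Source ℂ 2 := R.src hP
    let θ' : Y.X.functionField →+* S.K := θ
    have hθ' : ∀ (A B : MvPolynomial (Fin (Y.n + 1)) ℂ) (g : Y.X.functionField),
        IsRatio Y.emb A B g → θ' g = S.ratio A B := by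
      intro A B g hg
      have h1 : θ' g * chi S B = chi S A := hθ A B g hg
      obtain ⟨d, -, -, hBn, -⟩ := hg
      have h2 : chi S B ≠ 0 := by
        intro h0
        apply hBn
        have h3 : algebraMap S.S S.K (S.res B) = algebraMap S.S S.K 0 := by
          rw [map_zero]
          exact h0
        have h4 : S.res B = 0 := IsFractionRing.injective S.S (FractionRing S.S) h3
        exact Ideal.Quotient.eq_zero_iff_mem.1 h4
      rw [ratio_eq]
      exact eq_div_of_mul_eq h2 h1
    -- elements in the image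
    let p : Y.X.functionField → Prop := fun b => ∃ a, IsPull f a b
    have hfun : ∀ a : Coord 2, aeval (fun i => R.F (eI i)) (Q a) = R.F a := by
      intro a
      rw [Q, aeval_X, Equiv.apply_symm_apply]
    have hsurj := image_sub (S := S) θ' p ?_ ?_ ?_ ?_ ?_ (θ' z) (hbir.2 ?_)
    · obtain ⟨l, ⟨a, s, -, hs2⟩, hl⟩ := hsurj
      refine ⟨s, ?_⟩
      rw [hs2]
      exact θ'.injective hl
    · rintro a b ⟨a', ha⟩ ⟨b', hb⟩
      exact ⟨_, (hpull.2.1 _ _ _ _ ha hb).2⟩
    · rintro a b ⟨a', ha⟩ ⟨b', hb⟩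
      exact ⟨_, (hpull.2.1 _ _ _ _ ha hb).1⟩
    · rintro a ⟨a', ha⟩
      by_cases h0 : a = 0
      · subst h0
        rw [inv_zero]
        exact ⟨_, ha⟩
      · exact ⟨_, hpull.2.2.2.2.1 _ _ ha h0⟩
    · intro w
      refine ⟨ffHom Y.str w, ⟨ffHom M.str w, ?_⟩, ?_⟩
      · have h1 := hpull.2.2.2.2.2.2 M.str w
        rw [hs] at h1
        exact h1
      · have h1 := (hB _ _ Y.emb).2.2 _ Y.comm w
        have h2 : S.ratio (C w) 1 = algebraMap ℂ S.K w := by
          rw [ratio_eq, map_one, div_one]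
          exact chi_C S w
        exact (hθ' _ _ _ h1).trans h2
    · intro a b
      by_cases hb : R.F b ∈ Y.I
      · refine ⟨0, ⟨0, 0, map_zero _, map_zero _⟩, ?_⟩
        have h1 : chi S (R.F b) = 0 := chi_eq_zero S hb
        rw [map_zero, ratio_eq]
        show 0 = chi S (R.F a) / chi S (R.F b)
        rw [h1, div_zero]
      · have hQ1 : ∀ c : Coord 2, Q c ∈ grd 9 1 := fun c => isHomogeneous_X ℂ _
        have hQb : Q b ∉ M.P (f (genericPoint Y.X)) := by
          intro hh
          apply hb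
          have h1 := (R.vanish 1 _ (hQ1 b)).1 hh
          rwa [hfun] at h1
        have hQb' : Q b ∉ PI (M.emb (genericPoint M.X)) := by
          intro hh
          rw [M.gen] at hh
          exact hQb (hIX hh)
        obtain ⟨g, hg⟩ := (hA _ _ M.emb).1 1 (Q a) (Q b) (hQ1 a) (hQ1 b) hQb'
        obtain ⟨g', hg1, hg2⟩ := hRP _ _ f _ M.emb _ _ _ hg hQb
        refine ⟨g', ⟨g, hg2⟩, ?_⟩
        have h1 := R.ratio _ _ _ hg1
        rw [hfun, hfun] at h1
        exact hθ' _ _ _ h1
    · obtain ⟨d, A, B, hA1, hB1, hB2, hAB⟩ := hG Y (genericPoint Y.X) z (regAt_generic z)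
      rw [hθ' _ _ _ hAB]
      exact IntermediateField.subset_adjoin _ _ ⟨d, A, B, hA1, hB1, rfl⟩

end GMC
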