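import Pool.Agent.H30.GMC.StT

/-!
REPF: a morphism from a projective variety to projective space is given by forms of the same
degree, not all of them zero at a given point.
-/

open AlgebraicGeometry CategoryTheory FCB MvPolynomial

namespace GMC

namespace REPF

theorem unitAt_of_mul {T : Scheme.{0}} [IsIntegral T] {x : T} {a b : T.functionField}
    (ha : RegAt x a) (hb : RegAt x b) (hab : UnitAt x (a * b)) : UnitAt x b := by
  obtain ⟨s, rfl⟩ := ha
  obtain ⟨t, rfl⟩ := hb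
  obtain ⟨u, hu, hut⟩ := hab
  refine ⟨t, ?_, rfl⟩
  have hinj : Function.Injective (algebraMap (T.presheaf.stalk x) T.functionField) :=
    IsFractionRing.injective _ _
  have h1 : s * t = u := by
    apply hinj
    rw [map_mul, hut]
  exact isUnit_of_mul_isUnit_right (h1 ▸ hu)

theorem pi_le_of_gen (hP : S_PSB) {T : Scheme.{0}} [IsIntegral T] {n : ℕ} (h : T ⟶ PS n) (y : T) :
    PI (h (genericPoint T)) ≤ PI (h y) :=
  ((hP n).2.2.2.2.1 _ _).1 ((genericPoint_specializes y).map h.continuous)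

theorem ratio_congr (hA : S_RATA) {T : Scheme.{0}} [IsIntegral T] {n : ℕ} {h : T ⟶ PS n}
    {A B A' B' : MvPolynomial (Fin (n + 1)) ℂ} {f : T.functionField} (hf : IsRatio h A B f)
    {d : ℕ} (hA' : A' ∈ grd n d) (hB' : B' ∈ grd n d) (hn : B' ∉ PI (h (genericPoint T)))
    (he : A * B' - A' * B ∈ PI (h (genericPoint T))) : IsRatio h A' B' f := by
  obtain ⟨f', hf'⟩ := (hA T n h).1 d A' B' hA' hB' hn
  have h1 : f = f' := ((hA T n h).2.1 A B A' B' f f' hf hf').2 he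
  rw [h1]
  exact hf'

theorem IsRatio.mem {T : Scheme.{0}} [IsIntegral T] {n : ℕ} {h : T ⟶ PS n}
    {A B : MvPolynomial (Fin (n + 1)) ℂ} {f : T.functionField} (hf : IsRatio h A B f) :
    ∃ d, A ∈ grd n d ∧ B ∈ grd n d ∧ B ∉ PI (h (genericPoint T)) := by
  obtain ⟨d, h1, h2, h3, -⟩ := hf
  exact ⟨d, h1, h2, h3⟩

/-- `G / X_b ^ k` on `ℙⁿ` is `G(F) / F_b ^ k` on `Y`. -/
def Cls (Y : PVar) {n : ℕ} (h : Y.X ⟶ PS n) (F : Fin (n + 1) → MvPolynomial (Fin (Y.n + 1)) ℂ)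
    (b : Fin (n + 1)) (k : ℕ) (G : MvPolynomial (Fin (n + 1)) ℂ) : Prop :=
  ∃ g : Y.X.functionField, IsRatio h G (X b ^ k) g ∧ IsRatio Y.emb (aeval F G) (F b ^ k) g

section

variable {Y : PVar} {n : ℕ} {h : Y.X ⟶ PS n} {F : Fin (n + 1) → MvPolynomial (Fin (Y.n + 1)) ℂ}
  {b : Fin (n + 1)} {D : ℕ}

theorem pow_X_mem (b : Fin (n + 1)) (k : ℕ) :
    (X b ^ k : MvPolynomial (Fin (n + 1)) ℂ) ∈ grd n k :=
  isHomogeneous_X_pow b k

theorem not_mem_pow {m : ℕ} {I : Ideal (MvPolynomial (Fin (m + 1)) ℂ)} (hI : I.IsPrime)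
    {p : MvPolynomial (Fin (m + 1)) ℂ} (hp : p ∉ I) (k : ℕ) : p ^ k ∉ I :=
  fun hk => hp (hI.mem_of_pow_mem k hk)

theorem grd_pow {m : ℕ} {p : MvPolynomial (Fin (m + 1)) ℂ} {D : ℕ} (hp : p ∈ grd m D) (k : ℕ) :
    p ^ k ∈ grd m (D * k) := IsHomogeneous.pow hp k

theorem aeval_grd (hF : ∀ i, F i ∈ grd Y.n D) {k : ℕ} {G : MvPolynomial (Fin (n + 1)) ℂ}
    (hG : G ∈ grd n k) : aeval F G ∈ grd Y.n (D * k) := by
  have hG' : G.IsHomogeneous k := hG
  exact IsHomogeneous.aeval hG' F hF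

theorem Cls.mul (hB : S_RATB) {k l : ℕ} {G G' : MvPolynomial (Fin (n + 1)) ℂ}
    (h1 : Cls Y h F b k G) (h2 : Cls Y h F b l G') : Cls Y h F b (k + l) (G * G') := by
  obtain ⟨g, hg, hg'⟩ := h1
  obtain ⟨f, hf, hf'⟩ := h2
  refine ⟨g * f, ?_, ?_⟩
  · rw [pow_add]
    exact ((hB _ _ _).1 _ _ _ _ _ _ hg hf).1
  · rw [pow_add, map_mul]
    exact ((hB _ _ _).1 _ _ _ _ _ _ hg' hf').1

theorem Cls.add (hP : S_PSB) (hA : S_RATA) (hB : S_RATB) (hF : ∀ i, F i ∈ grd Y.n D)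
    (hb : X b ∉ PI (h (genericPoint Y.X))) (hFb : F b ∉ Y.I) {k : ℕ}
    {G G' : MvPolynomial (Fin (n + 1)) ℂ} (hG : G ∈ grd n k) (hG' : G' ∈ grd n k)
    (h1 : Cls Y h F b k G) (h2 : Cls Y h F b k G') : Cls Y h F b k (G + G') := by
  obtain ⟨g, hg, hg'⟩ := h1
  obtain ⟨f, hf, hf'⟩ := h2
  refine ⟨g + f, ?_, ?_⟩
  · refine ratio_congr hA ((hB _ _ _).1 _ _ _ _ _ _ hg hf).2 (d := k)
      (Submodule.add_mem _ hG hG') (pow_X_mem b k) (not_mem_pow ((hP _).1 _) hb k) ?_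
    have : (G * X b ^ k + G' * X b ^ k) * X b ^ k - (G + G') * (X b ^ k * X b ^ k) = 0 := by ring
    rw [this]
    exact Ideal.zero_mem _
  · refine ratio_congr hA ((hB _ _ _).1 _ _ _ _ _ _ hg' hf').2 (d := D * k)
      (aeval_grd hF (Submodule.add_mem _ hG hG')) (grd_pow (hF b) k)
      (not_mem_pow ((hP _).1 _) hFb k) ?_
    rw [map_add]
    have : (aeval F G * F b ^ k + aeval F G' * F b ^ k) * F b ^ k -
      (aeval F G + aeval F G') * (F b ^ k * F b ^ k) = 0 := by ring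
    rw [this]
    exact Ideal.zero_mem _

theorem Cls.zero (hP : S_PSB) (hA : S_RATA) (hF : ∀ i, F i ∈ grd Y.n D)
    (hb : X b ∉ PI (h (genericPoint Y.X))) (hFb : F b ∉ Y.I) (k : ℕ) :
    Cls Y h F b k 0 := by
  obtain ⟨g, hg⟩ := (hA _ _ h).1 k 0 (X b ^ k) (Submodule.zero_mem _) (pow_X_mem b k)
    (not_mem_pow ((hP _).1 _) hb k)
  have h0 : g = 0 := ((hA _ _ h).2.2 _ _ _ hg).2 (Ideal.zero_mem _)
  obtain ⟨f, hf⟩ := (hA _ _ Y.emb).1 (D * k) 0 (F b ^ k) (Submodule.zero_mem _)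
    (grd_pow (hF b) k) (not_mem_pow ((hP _).1 _) hFb k)
  have h0' : f = 0 := ((hA _ _ Y.emb).2.2 _ _ _ hf).2 (Ideal.zero_mem _)
  refine ⟨0, h0 ▸ hg, ?_⟩
  rw [map_zero]
  exact h0' ▸ hf

theorem Cls.const (hB : S_RATB) (hs : h ≫ PSstr n = Y.str) (z : ℂ) : Cls Y h F b 0 (C z) := by
  refine ⟨ffHom Y.str z, ?_, ?_⟩
  · rw [pow_zero]
    exact (hB _ _ h).2.2 _ hs z
  · rw [pow_zero, ← MvPolynomial.algebraMap_eq, AlgHom.commutes]
    exact (hB _ _ Y.emb).2.2 _ Y.comm z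

theorem cls_monomial (hB : S_RATB) (hs : h ≫ PSstr n = Y.str)
    (h1 : ∀ i, Cls Y h F b 1 (X i)) (s : Fin (n + 1) →₀ ℕ) (c : ℂ) :
    ∃ k, monomial s c ∈ grd n k ∧ Cls Y h F b k (monomial s c) := by
  refine induction_on_monomial (motive := fun p => ∃ k, p ∈ grd n k ∧ Cls Y h F b k p) ?_ ?_ s c
  · intro z
    exact ⟨0, isHomogeneous_C _ z, Cls.const hB hs z⟩
  · rintro p i ⟨k, hk, hc⟩
    exact ⟨k + 1, IsHomogeneous.mul hk (isHomogeneous_X ℂ i), hc.mul hB (h1 i)⟩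

theorem cls_all (hP : S_PSB) (hA : S_RATA) (hB : S_RATB) (hs : h ≫ PSstr n = Y.str)
    (hF : ∀ i, F i ∈ grd Y.n D)
    (hb : X b ∉ PI (h (genericPoint Y.X))) (hFb : F b ∉ Y.I)
    (h1 : ∀ i, Cls Y h F b 1 (X i)) {k : ℕ} {G : MvPolynomial (Fin (n + 1)) ℂ}
    (hG : G ∈ grd n k) : Cls Y h F b k G := by
  have hG' : G.IsHomogeneous k := hG
  have hkey : ∀ S : Finset (Fin (n + 1) →₀ ℕ), S ⊆ G.support →
      (∑ v ∈ S, monomial v (coeff v G)) ∈ grd n k ∧
      Cls Y h F b k (∑ v ∈ S, monomial v (coeff v G)) := by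
    intro S
    induction S using Finset.induction_on with
    | empty =>
      intro _
      rw [Finset.sum_empty]
      exact ⟨Submodule.zero_mem _, Cls.zero hP hA hF hb hFb k⟩
    | insert v S hv ih =>
      intro hS
      have hS' : S ⊆ G.support := fun w hw => hS (Finset.mem_insert_of_mem hw)
      have hvG : v ∈ G.support := hS (Finset.mem_insert_self _ _)
      obtain ⟨i1, i2⟩ := ih hS'
      rw [Finset.sum_insert hv]
      have hc : coeff v G ≠ 0 := mem_support_iff.1 hvG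
      obtain ⟨l, hl, hc2⟩ := cls_monomial hB hs h1 v (coeff v G)
      have hk : monomial v (coeff v G) ∈ grd n k := by
        refine isHomogeneous_monomial _ ?_
        have := hG' hc
        rw [Finsupp.degree_eq_weight_one]
        exact this
      have hlk : l = k := by
        refine IsHomogeneous.inj_right (φ := monomial v (coeff v G)) hl hk ?_
        rw [Ne, monomial_eq_zero]
        exact hc
      subst hlk
      exact ⟨Submodule.add_mem _ hk i1, Cls.add hP hA hB hF hb hFb hk i1 hc2 i2⟩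
  have h2 := (hkey G.support subset_rfl).2
  rwa [← MvPolynomial.as_sum] at h2

end

end REPF

open REPF in
theorem repf_thm (hP : S_PSB) (hI : S_IPT) (hA : S_RATA) (hB : S_RATB) (hL : S_RLOC)
    (hR : S_RGEN) : S_REPF := by
  intro Y n h hs y
  have hprY : ∀ z : Y.X, (Y.P z).IsPrime := fun z => (hP _).1 _
  have hprI : Y.I.IsPrime := hprY _
  have hIle : ∀ z : Y.X, Y.I ≤ Y.P z := fun z => pi_le_of_gen hP Y.emb z
  obtain ⟨b, hb⟩ := (hP n).2.2.1 (h y)
  have hbg : X b ∉ PI (h (genericPoint Y.X)) := fun hh => hb (pi_le_of_gen hP h y hh)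
  -- the ratios `X_a / X_b`
  have hX1 : ∀ a : Fin (n + 1), (X a : MvPolynomial (Fin (n + 1)) ℂ) ∈ grd n 1 :=
    fun a => isHomogeneous_X ℂ a
  choose f hf using fun a => (hA _ _ h).1 1 (X a) (X b) (hX1 a) (hX1 b) hbg
  have hreg : ∀ a, RegAt y (f a) := fun a => ((hL _ _ h) y _ _ _ (hf a) hb).1
  choose d A B hAd hBd hBy hAB using fun a => hR Y y (f a) (hreg a)
  have hBI : ∀ a, B a ∉ Y.I := fun a hh => hBy a (hIle y hh)
  have hfb : f b = 1 := by
    have h1 := (hB _ _ h).2.1 1 (X b) (hX1 b) hbg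
    refine ((hA _ _ h).2.1 _ _ _ _ _ _ (hf b) h1).2 ?_
    rw [sub_self]
    exact Ideal.zero_mem _
  have hABb : A b - B b ∈ Y.I := by
    have h1 := (hB _ _ Y.emb).2.1 _ (B b) (hBd b) (hBI b)
    have h2 := ((hA _ _ Y.emb).2.1 _ _ _ _ _ _ (hAB b) h1).1 hfb
    have h3 : A b * B b - B b * B b = (A b - B b) * B b := by ring
    rw [h3] at h2
    exact (hprI.mem_or_mem h2).resolve_right (hBI b)
  let F : Fin (n + 1) → MvPolynomial (Fin (Y.n + 1)) ℂ :=
    fun a => A a * ∏ c ∈ Finset.univ.erase a, B c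
  let D : ℕ := ∑ a, d a
  let PB : MvPolynomial (Fin (Y.n + 1)) ℂ := ∏ a, B a
  have hF : ∀ i, F i ∈ grd Y.n D := by
    intro i
    have h1 : (∏ c ∈ Finset.univ.erase i, B c).IsHomogeneous (∑ c ∈ Finset.univ.erase i, d c) :=
      IsHomogeneous.prod _ _ _ fun c _ => hBd c
    have h2 : (A i).IsHomogeneous (d i) := hAd i
    have h3 := h2.mul h1
    rw [Finset.add_sum_erase _ _ (Finset.mem_univ i)] at h3
    exact h3
  have hFB : ∀ i, F i * B i = A i * PB := by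
    intro i
    show A i * (∏ c ∈ Finset.univ.erase i, B c) * B i = A i * ∏ a, B a
    rw [mul_assoc, Finset.prod_erase_mul _ _ (Finset.mem_univ i)]
  have hFbPB : F b - PB ∈ Y.I := by
    have h1 : F b - PB = (A b - B b) * ∏ c ∈ Finset.univ.erase b, B c := by
      show A b * (∏ c ∈ Finset.univ.erase b, B c) - ∏ a, B a = _
      rw [← Finset.mul_prod_erase _ _ (Finset.mem_univ b)]
      ring
    rw [h1]
    exact Ideal.mul_mem_right _ _ hABb
  have hPBy : PB ∉ Y.P y := by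
    intro hh
    obtain ⟨c, -, hc⟩ := ((hprY y).prod_mem_iff).1 hh
    exact hBy c hc
  have hFby : F b ∉ Y.P y := by
    intro hh
    apply hPBy
    have h1 : PB = F b - (F b - PB) := by ring
    rw [h1]
    exact Ideal.sub_mem _ hh (hIle y hFbPB)
  have hFbI : F b ∉ Y.I := fun hh => hFby (hIle y hh)
  have hcls1 : ∀ i, Cls Y h F b 1 (X i) := by
    intro i
    refine ⟨f i, ?_, ?_⟩
    · rw [pow_one]
      exact hf i
    · rw [pow_one, aeval_X]
      refine ratio_congr hA (hAB i) (hF i) (hF b) hFbI ?_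
      have h1 : A i * F b - F i * B i = A i * (F b - PB) := by
        rw [hFB i]
        ring
      rw [h1]
      exact Ideal.mul_mem_left _ _ hFbPB
  have hcls : ∀ {k : ℕ} {G : MvPolynomial (Fin (n + 1)) ℂ}, G ∈ grd n k → Cls Y h F b k G :=
    fun hG => cls_all hP hA hB hs hF hbg hFbI hcls1 hG
  have h3 : ∀ k, ∀ G ∈ grd n k, G ∈ PI (h (genericPoint Y.X)) ↔ aeval F G ∈ Y.I := by
    intro k G hG
    obtain ⟨g, hg1, hg2⟩ := hcls hG
    exact ((hA _ _ h).2.2 _ _ _ hg1).symm.trans ((hA _ _ Y.emb).2.2 _ _ _ hg2)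
  have h4 : ∀ A B g, IsRatio h A B g → IsRatio Y.emb (aeval F A) (aeval F B) g := by
    intro A B g hg
    obtain ⟨k, hAk, hBk, hBn⟩ := IsRatio.mem hg
    obtain ⟨gA, hgA1, hgA2⟩ := hcls hAk
    obtain ⟨gB, hgB1, hgB2⟩ := hcls hBk
    have hBn' : aeval F B ∉ Y.I := fun hh => hBn ((h3 k B hBk).2 hh)
    obtain ⟨g', hg'⟩ := (hA _ _ Y.emb).1 (D * k) (aeval F A) (aeval F B) (aeval_grd hF hAk)
      (aeval_grd hF hBk) hBn'
    have e1 : g * gB = gA := by
      refine ((hA _ _ h).2.1 _ _ _ _ _ _ ((hB _ _ _).1 _ _ _ _ _ _ hg hgB1).1 hgA1).2 ?_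
      have : A * B * X b ^ k - A * (B * X b ^ k) = 0 := by ring
      rw [this]
      exact Ideal.zero_mem _
    have e2 : g' * gB = gA := by
      refine ((hA _ _ Y.emb).2.1 _ _ _ _ _ _ ((hB _ _ _).1 _ _ _ _ _ _ hg' hgB2).1 hgA2).2 ?_
      have : aeval F A * aeval F B * F b ^ k - aeval F A * (aeval F B * F b ^ k) = 0 := by ring
      rw [this]
      exact Ideal.zero_mem _
    have hgB0 : gB ≠ 0 := by
      intro h0
      exact hBn (((hA _ _ h).2.2 _ _ _ hgB1).1 h0)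
    have e3 : g = g' := mul_right_cancel₀ hgB0 (e1.trans e2.symm)
    rw [e3]
    exact hg'
  refine ⟨D, F, hF, ⟨b, hFby⟩, h3, h4, ?_⟩
  intro z v w hv hw
  obtain ⟨hw0, -⟩ := (hI n).2.1 _ _ hw
  obtain ⟨c, hc⟩ := Function.ne_iff.1 hw0
  have hc' : w c ≠ 0 := hc
  have hcz : X c ∉ PI (h z) := by
    intro hh
    have := (hw 1 (X c) (isHomogeneous_X ℂ c)).1 hh
    rw [eval_X] at this
    exact hc' this
  have hcg : X c ∉ PI (h (genericPoint Y.X)) := fun hh => hcz (pi_le_of_gen hP h z hh)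
  obtain ⟨j, hj⟩ := (hP Y.n).2.2.1 (Y.emb z)
  have hjI : (X j : MvPolynomial (Fin (Y.n + 1)) ℂ) ∉ Y.I := fun hh => hj (hIle z hh)
  have hjD : (X j ^ D : MvPolynomial (Fin (Y.n + 1)) ℂ) ∉ Y.P z := not_mem_pow (hprY z) hj D
  have hjDI : (X j ^ D : MvPolynomial (Fin (Y.n + 1)) ℂ) ∉ Y.I := not_mem_pow hprI hjI D
  have hFc : F c ∉ Y.I := by
    intro hh
    apply hcg
    refine (h3 1 (X c) (hX1 c)).2 ?_
    rw [aeval_X]
    exact hh
  refine ⟨eval v (F c) / w c, fun i => ?_⟩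
  -- the form `w_c X_i - w_i X_c`
  let N : MvPolynomial (Fin (n + 1)) ℂ := C (w c) * X i - C (w i) * X c
  have hN : N ∈ grd n 1 := by
    refine Submodule.sub_mem _ ?_ ?_
    · have := (isHomogeneous_C (Fin (n + 1)) (w c)).mul (isHomogeneous_X ℂ i)
      rwa [zero_add] at this
    · have := (isHomogeneous_C (Fin (n + 1)) (w i)).mul (isHomogeneous_X ℂ c)
      rwa [zero_add] at this
  have hNz : N ∈ PI (h z) := by
    refine (hw 1 N hN).2 ?_
    show eval w (C (w c) * X i - C (w i) * X c) = 0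
    simp only [map_sub, map_mul, eval_C, eval_X]
    ring
  obtain ⟨r, hr⟩ := (hA _ _ h).1 1 N (X c) hN (hX1 c) hcg
  have hrr := hL _ _ h z _ _ _ hr hcz
  have hrY := h4 _ _ _ hr
  have hNF : aeval F N = C (w c) * F i - C (w i) * F c := by
    show aeval F (C (w c) * X i - C (w i) * X c) = _
    simp only [map_sub, map_mul, aeval_X, ← MvPolynomial.algebraMap_eq, AlgHom.commutes]
  obtain ⟨p, hp⟩ := (hA _ _ Y.emb).1 D (F c) (X j ^ D) (hF c) (pow_X_mem j D) hjDI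
  obtain ⟨q, hq⟩ := (hA _ _ Y.emb).1 D (aeval F N) (X j ^ D)
    (by simpa using aeval_grd hF hN) (pow_X_mem j D) hjDI
  have hpr : p * r = q := by
    refine ((hA _ _ Y.emb).2.1 _ _ _ _ _ _ ((hB _ _ _).1 _ _ _ _ _ _ hp hrY).1 hq).2 ?_
    rw [aeval_X]
    have : F c * aeval F N * X j ^ D - aeval F N * (X j ^ D * F c) = 0 := by ring
    rw [this]
    exact Ideal.zero_mem _
  have hpz := hL _ _ Y.emb z _ _ _ hp hjD
  have hqz := hL _ _ Y.emb z _ _ _ hq hjD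
  have hNFz : aeval F N ∈ Y.P z := by
    by_contra hcon
    have hu : UnitAt z q := hqz.2.2 hcon
    rw [← hpr] at hu
    exact (hrr.2.1 (unitAt_of_mul hpz.1 hrr.1 hu)) hNz
  have hfin := (hv D (aeval F N) (by simpa using aeval_grd hF hN)).1 hNFz
  rw [hNF] at hfin
  simp only [map_sub, map_mul, eval_C] at hfin
  have h5 : w c * eval v (F i) = w i * eval v (F c) := sub_eq_zero.1 hfin
  field_simp
  linear_combination h5

end GMC
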