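import Pool.Agent.H30.GMC.StT

/-!
REPX: morphisms to `ℙ(1,1,1,2)` are given by forms.
-/

open AlgebraicGeometry CategoryTheory FCB MvPolynomial

namespace GMC

namespace REPX

theorem rho_Q (a : Pool.Agent.H22.GMC.Coord 2) : rho (Q a) = mon a := by
  rw [Q, rho, aeval_X, Equiv.apply_symm_apply]

theorem symm_mem (i j : Fin 3) : Q (some (i, j)) - Q (some (j, i)) ∈ IX := by
  rw [IX, RingHom.mem_ker, map_sub, rho_Q, rho_Q, mon, mon, mul_comm, sub_self]

theorem rank_mem (i j i' j' : Fin 3) :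
    Q (some (i, j)) * Q (some (i', j')) - Q (some (i, j')) * Q (some (i', j)) ∈ IX := by
  rw [IX, RingHom.mem_ker, map_sub, map_mul, map_mul, rho_Q, rho_Q, rho_Q, rho_Q, mon, mon, mon,
    mon]
  ring

theorem Q_grd (a : Pool.Agent.H22.GMC.Coord 2) : Q a ∈ grd 9 1 := isHomogeneous_X ℂ _

end REPX

open REPX in
theorem repx_thm (hP : S_PSB) (hF : S_REPF) : S_REPX := by
  intro M Y f hs y
  have hs' : (f ≫ M.emb) ≫ PSstr 9 = Y.str := by
    rw [Category.assoc]
    exact hs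
  obtain ⟨d, F, hF1, ⟨i₀, hi₀⟩, hF3, hF4, hF5⟩ := hF Y 9 (f ≫ M.emb) hs' y
  have hIX : IX ≤ PI ((f ≫ M.emb) (genericPoint Y.X)) := by
    rw [← M.gen]
    refine ((hP 9).2.2.2.2.1 _ _).1 ?_
    have h1 : genericPoint M.X ⤳ f (genericPoint Y.X) := genericPoint_specializes _
    exact h1.map M.emb.continuous
  have hIP : Y.I ≤ Y.P y :=
    ((hP Y.n).2.2.2.2.1 _ _).1 ((genericPoint_specializes y).map Y.emb.continuous)
  have hfun : (fun i => F (eI.symm (eI i))) = F := by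
    funext i
    rw [Equiv.symm_apply_apply]
  have hQ : ∀ a, aeval F (Q a) = F (eI.symm a) := fun a => aeval_X _ _
  refine ⟨⟨d, fun a => F (eI.symm a), fun a => hF1 _, ?_, ?_, ?_, ?_, ?_, ?_⟩, ?_⟩
  · intro i j
    have h1 := (hF3 1 _ (Submodule.sub_mem _ (Q_grd (some (i, j))) (Q_grd (some (j, i))))).1
      (hIX (symm_mem i j))
    rw [map_sub, hQ, hQ] at h1
    exact h1
  · intro i j i' j'
    have hh : ∀ a b : Pool.Agent.H22.GMC.Coord 2, Q a * Q b ∈ grd 9 2 := fun a b =>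
      IsHomogeneous.mul (Q_grd a) (Q_grd b)
    have h1 := (hF3 2 _ (Submodule.sub_mem _ (hh (some (i, j)) (some (i', j')))
      (hh (some (i, j')) (some (i', j))))).1 (hIX (rank_mem i j i' j'))
    rw [map_sub, map_mul, map_mul, hQ, hQ, hQ, hQ] at h1
    exact h1
  · refine ⟨eI i₀, ?_⟩
    show F (eI.symm (eI i₀)) ∉ Y.I
    rw [Equiv.symm_apply_apply]
    exact fun hh => hi₀ (hIP hh)
  · intro k G hG
    show G ∈ M.P (f (genericPoint Y.X)) ↔ aeval (fun i => F (eI.symm (eI i))) G ∈ Y.I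
    rw [hfun]
    exact hF3 k G hG
  · intro A B g hg
    show IsRatio Y.emb (aeval (fun i => F (eI.symm (eI i))) A)
      (aeval (fun i => F (eI.symm (eI i))) B) g
    rw [hfun]
    exact hF4 A B g hg
  · intro z v w hv hw
    obtain ⟨l, hl⟩ := hF5 z v w hv hw
    refine ⟨l, fun i => ?_⟩
    show eval v (F (eI.symm (eI i))) = l * w i
    rw [Equiv.symm_apply_apply]
    exact hl i
  · refine ⟨eI i₀, ?_⟩
    show F (eI.symm (eI i₀)) ∉ Y.P y
    rw [Equiv.symm_apply_apply]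
    exact hi₀

end GMC
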